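import Mathlib

set_option autoImplicit false
open Finset SimpleGraph

namespace Pool.Agent.Results.MP_9cf868_co.NoPath

variable {V : Type} [Fintype V] [DecidableEq V]

/-- Vertices joined to `X` by an edge of each colour. -/
def NRB (G : SimpleGraph V) [DecidableRel G.Adj] (c : Sym2 V → Bool) (X : Finset V) : Finset V :=
  univ.filter fun v => (∃ x ∈ X, G.Adj x v ∧ c s(x, v) = true) ∧ ∃ x ∈ X, G.Adj x v ∧ c s(x, v) = false

def G : SimpleGraph (Fin 7) := fromRel fun a b => (a, b) ∈ ([(0, 4), (0, 6), (1, 4), (1, 5), (1, 6),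
  (2, 4), (2, 5), (2, 6), (3, 4), (3, 6)] : List (Fin 7 × Fin 7))

instance : DecidableRel G.Adj := fun _ _ => by unfold G; simp only [fromRel_adj]; infer_instance

def c (e : Sym2 (Fin 7)) : Bool := e ∈ [s(1, 4), s(1, 5), s(2, 6), s(3, 4), s(3, 6)]

def gen : ℕ → List (Fin 7 × List (Fin 7) × Option Bool)
  | 0 => (List.finRange 7).map fun v => (v, [v], none)
  | k + 1 => (gen k).flatMap fun l => ((List.finRange 7).filter fun x =>
      G.Adj x l.1 ∧ x ∉ l.2.1 ∧ l.2.2 ≠ some (c s(x, l.1))).map fun x =>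
        (x, x :: l.2.1, some (c s(x, l.1)))

theorem mem {u v : Fin 7} (p : G.Walk u v) (h1 : p.IsPath)
    (h2 : p.edges.IsChain fun e f => c e ≠ c f) :
    (u, p.support, p.edges.head?.map c) ∈ gen p.length := by
  induction p with
  | nil => simp [gen]
  | cons h q ih =>
    rw [Walk.cons_isPath_iff] at h1
    rw [Walk.edges_cons, List.isChain_cons] at h2
    refine List.mem_flatMap.mpr ⟨_, ih h1.1 h2.2, List.mem_map.mpr ⟨_, ?_, rfl⟩⟩
    simp only [List.mem_filter, List.mem_finRange, decide_eq_true_eq, true_and]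
    refine ⟨h, h1.2, fun e => ?_⟩
    obtain ⟨y, hy, e⟩ := Option.map_eq_some_iff.mp e
    exact h2.1 y hy e.symm

theorem result : ∃ (V : Type) (_ : Fintype V) (_ : DecidableEq V) (G : SimpleGraph V)
    (_ : DecidableRel G.Adj) (A : Finset V) (c : Sym2 V → Bool),
    (∀ u v, G.Adj u v → (u ∈ A ↔ v ∉ A)) ∧ (∀ X ⊆ A, #X ≤ #(NRB G c X) + 1) ∧
    ∀ u v (p : G.Walk u v), p.IsPath → p.edges.IsChain (fun e f => c e ≠ c f) →
      ¬ ∀ a ∈ A, a ∈ p.support := by
  refine ⟨_, inferInstance, inferInstance, G, inferInstance, {0, 1, 2, 3}, c, by decide +kernel,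
    by decide +kernel, fun u v p h1 h2 => ?_⟩
  have : ∀ k < 7, ∀ l ∈ gen k, ¬ ∀ a ∈ ({0, 1, 2, 3} : Finset (Fin 7)), a ∈ l.2.1 := by
    decide +kernel
  exact this _ (by simpa using h1.length_lt) _ (mem p h1 h2)

end Pool.Agent.Results.MP_9cf868_co.NoPath
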